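import Mathlib
import Pool.Agent.H79.SymB

namespace Pool.Agent.Results.MP_718c62_al.Counter

open MvPolynomial Pool.Agent.H79.PD Pool.Agent.H79.Mono Pool.Agent.H79.SymA Pool.Agent.H79.SymB

variable {K : Type} [Field K] {n : ℕ}

/-- `x ^ m` lies in the Stanley space `x ^ u K[Z]`. -/
def InSp (u : Fin n →₀ ℕ) (Z : Finset (Fin n)) (m : Fin n →₀ ℕ) : Prop :=
  ∃ w : Fin n →₀ ℕ, w.support ⊆ Z ∧ m = u + w

/-- A Stanley decomposition of `S / I`. -/
def IsSD (I : Ideal (MvPolynomial (Fin n) K)) {r : ℕ} (u : Fin r → Fin n →₀ ℕ)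
    (Z : Fin r → Finset (Fin n)) : Prop :=
  ∀ m, (monomial m (1 : K) ∉ I ↔ ∃ i, InSp (u i) (Z i) m) ∧
    ∀ i j, InSp (u i) (Z i) m → InSp (u j) (Z j) m → i = j

/-- `sdepth S / I = d`. -/
def HasSdepth (I : Ideal (MvPolynomial (Fin n) K)) (d : ℕ) : Prop :=
  IsGreatest {e | ∃ (r : ℕ) (u : Fin r → Fin n →₀ ℕ) (Z : Fin r → Finset (Fin n)),
    IsSD I u Z ∧ ∀ i, e ≤ (Z i).card} d

lemma inSp_iff {u m : Fin n →₀ ℕ} {Z : Finset (Fin n)} :
    InSp u Z m ↔ ∀ i, u i ≤ m i ∧ (i ∉ Z → m i = u i) := by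
  constructor
  · rintro ⟨w, h, rfl⟩ i
    exact ⟨by simp, fun x => by simp [Finsupp.notMem_support_iff.1 fun y => x (h y)]⟩
  · refine fun h => ⟨m - u, fun i x => by_contra fun y => ?_,
      (add_tsub_cancel_of_le fun i => (h i).1).symm⟩
    simp [(h i).2 y] at x

noncomputable def SS : Finset (Fin 5 →₀ ℕ) :=
  (({0, 1} : Finset (Fin 5)) ×ˢ ({2, 3, 4} : Finset (Fin 5))).image fun x =>
    Finsupp.single x.1 1 + Finsupp.single x.2 1

lemma mem_iff (m : Fin 5 →₀ ℕ) : (∃ s ∈ (SS : Set (Fin 5 →₀ ℕ)), s ≤ m) ↔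
    m ∈ varSet ({0, 1} : Finset (Fin 5)) ∩ varSet {2, 3, 4} := by
  constructor
  · rintro ⟨_, hs, h⟩
    obtain ⟨⟨a, b⟩, x, rfl⟩ := Finset.mem_image.1 hs
    rw [Finset.mem_product] at x
    exact ⟨⟨a, x.1, le_trans (by simp) (h a)⟩, b, x.2, le_trans (by simp) (h b)⟩
  · rintro ⟨⟨a, x, h⟩, b, y, k⟩
    refine ⟨_, Finset.mem_image.2 ⟨(a, b), Finset.mem_product.2 ⟨x, y⟩, rfl⟩, fun i => ?_⟩
    have : a ≠ b := by clear h k; revert a b; decide
    simp only [Finsupp.add_apply, Finsupp.single_apply]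
    split_ifs <;> subst_vars <;> first | omega | contradiction

theorem result (K : Type) [Field K] : ∃ S : Finset (Fin 5 →₀ ℕ),
    IsAntichain (· ≤ ·) (S : Set (Fin 5 →₀ ℕ)) ∧ S.card = 6 ∧
    CategoryTheory.projectiveDimension (ModuleCat.of (MvPolynomial (Fin 5) K)
      (MvPolynomial (Fin 5) K ⧸ Ideal.span ((fun s => monomial s (1 : K)) '' S))) = 4 ∧
    HasSdepth (Ideal.span ((fun s => monomial s (1 : K)) '' (S : Set (Fin 5 →₀ ℕ)))) 2 := by
  classical
  have up := (varSet_upper ({0, 1} : Finset (Fin 5))).inter (varSet_upper {2, 3, 4})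
  have e : Ideal.span ((fun s => monomial s (1 : K)) '' SS) =
      MI K (varSet ({0, 1} : Finset (Fin 5)) ∩ varSet {2, 3, 4}) := by
    ext f
    rw [mem_MI up, mem_ideal_span_monomial_image]
    simp only [mem_iff]
  have u : varSet ({0, 1} : Finset (Fin 5)) ∪ varSet {2, 3, 4} = varSet Finset.univ := by
    ext m; simp [varSet, Fin.exists_fin_succ]; omega
  have a := MI_inter (K := K) (varSet_upper ({0, 1} : Finset (Fin 5))) (varSet_upper {2, 3, 4})
  have b := (u ▸ MI_union (K := K) (varSet ({0, 1} : Finset (Fin 5))) (varSet {2, 3, 4}) :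
    MI K (varSet Finset.univ) = _)
  have p1 : PdU K (varSet ({0, 1} : Finset (Fin 5))) 5 := pd_mono (by decide) (pdU_varSet _)
  have p2 : PdU K (varSet ({2, 3, 4} : Finset (Fin 5))) 5 := pd_mono (by decide) (pdU_varSet _)
  have mm : ∀ m : Fin 5 →₀ ℕ, monomial m (1 : K) ∉ Ideal.span ((fun s => monomial s (1 : K)) '' SS)
      ↔ (m 0 = 0 ∧ m 1 = 0) ∨ (m 2 = 0 ∧ m 3 = 0 ∧ m 4 = 0) := fun m => by
    rw [e, monomial_mem_MI up]; simp [varSet]; omega
  refine ⟨SS, ?_, ?_, ?_, ⟨5, ![0, Finsupp.single 2 1, Finsupp.single 3 1, Finsupp.single 4 1,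
    Finsupp.single 2 1 + Finsupp.single 3 1 + Finsupp.single 4 1],
    ![{0, 1}, {2, 3}, {3, 4}, {2, 4}, {2, 3, 4}], fun m => ⟨?_, fun i j => ?_⟩, by decide⟩, ?_⟩
  · intro s hs t ht h
    simp only [SS, Finset.coe_image, Set.mem_image, Finset.mem_coe, Finset.mem_product,
      Finset.mem_insert, Finset.mem_singleton, Prod.exists] at hs ht
    obtain ⟨a, b, ⟨rfl | rfl, rfl | rfl | rfl⟩, rfl⟩ := hs <;>
      obtain ⟨a, b, ⟨rfl | rfl, rfl | rfl | rfl⟩, rfl⟩ := ht <;>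
      first | exact absurd rfl h | simp [Finsupp.le_def, Fin.forall_fin_succ, Finsupp.single_apply]
  · rw [SS, Finset.card_image_of_injOn]
    · rfl
    · rintro ⟨a, b⟩ hs ⟨c, d⟩ ht h
      simp only [Finset.coe_product, Set.mem_prod, Finset.coe_insert, Finset.coe_singleton,
        Set.mem_insert_iff, Set.mem_singleton_iff] at hs ht
      have h1 := DFunLike.congr_fun h a
      have h2 := DFunLike.congr_fun h b
      obtain ⟨rfl | rfl, rfl | rfl | rfl⟩ := hs <;> obtain ⟨rfl | rfl, rfl | rfl | rfl⟩ := ht <;>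
        first | rfl | simp [Finsupp.single_apply] at h1 h2
  · rw [e]
    refine le_antisymm ((CategoryTheory.projectiveDimension_le_iff _ 4).2
      (pd_inf _ _ _ _ a b 5 p1 p2 (pdU_varSet Finset.univ)))
      ((CategoryTheory.projectiveDimension_ge_iff _ 4).2 fun x => ?_)
    exact not_pdU (varSet_upper Finset.univ) Finset.univ 0 (by simp [varSet])
      (fun j _ => ⟨j, by simp⟩) (pd_sup _ _ _ _ a b 4 p1 p2 x)
  · rw [mm]
    simp [inSp_iff, Fin.exists_fin_succ, Fin.forall_fin_succ, Finsupp.single_apply]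
    omega
  · fin_cases i <;> fin_cases j <;>
      simp [inSp_iff, Fin.forall_fin_succ, Finsupp.single_apply] <;> omega
  · rintro d ⟨r, u, Z, h, hd⟩
    by_contra x
    obtain ⟨i, w, hw, hi⟩ := (h (Finsupp.single 0 1)).1.1 ((mm _).2 (by simp))
    obtain ⟨z, hz, y⟩ := Finset.exists_mem_notMem_of_card_lt_card (s := ({0, 1} : Finset (Fin 5)))
      (t := Z i) (by have := hd i; simp; omega)
    have := (mm _).1 ((h (Finsupp.single 0 1 + Finsupp.single z 1)).1.2 ⟨i, w + Finsupp.single z 1,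
      Finsupp.support_add.trans (Finset.union_subset hw
        (Finsupp.support_single_subset.trans (by simpa using hz))), by rw [hi, add_assoc]⟩)
    fin_cases z <;> simp at this y

end Pool.Agent.Results.MP_718c62_al.Counter
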